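import Pool.Agent.T9h62.DP.DirMain
import Pool.Agent.T9h62.DP.Wander
import Pool.Agent.N413.SE.ZOD
import Pool.Agent.N692.SD.AC

/-!
Directed polymers on `ℤ^d`, simple random walk, arbitrary i.i.d. environment (no moment
condition), positive temperature: bounds for the Hausdorff dimension of the set of the exceptional
directions, i.e. the slopes `v` around which, for some drift, the wandering exponent is small.
The definitions (`polymer`, `dev`, `wander`) are in `Pool/Agent/N662/SE/Exp.lean` and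
`Pool/Agent/N662/SE/Up.lean`; the walk (`Step`, `pos`) and the energy are in
`Pool/Agent/TH967/DP/Defs.lean`.
-/

set_option autoImplicit false

open MeasureTheory ProbabilityTheory Filter Topology
open scoped ENNReal

namespace Pool.Agent.Results.MP_7d29a1_pr.ExceptionalDirections

open TH967.DP (Step pos energy)
open Pool.Agent.N662.SE

variable {d : ℕ}

/-- Let `d ≥ 1`, let `ω(i,y)` be i.i.d. with any non-constant law and `β > 0`.
(1) Let `s > 0`. For all slopes `v ∈ ℝ^d` outside a set whose `ds`-dimensional Hausdorff measure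
vanishes and for all drifts `h ∈ ℝ^d`: for all `θ < 1`, `0 ≤ a < min ((1+2s)/(2+2s+d)) (1/d)` and
`c < (1-da)/2`, almost surely, for infinitely many `n` the polymer measure of
`{‖S_i - i v‖ ≤ n^a for all θ n ≤ i ≤ n}` is at most `exp(-n^c)`; and the wandering exponent around
the line of slope `v` is at least `min ((1+2s)/(2+2s+d)) (1/d)`.
(2) For `1/(d+2) < a ≤ min (3/(d+4)) (1/d)` the set of the slopes `v` such that for some drift the
wandering exponent around the line of slope `v` is less than `a` has Hausdorff dimension at most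
`d ((d+2) a - 1) / (2 (1 - a))`.
(3) The set of the slopes `v` such that for some drift the wandering exponent around the line of
slope `v` is at most `1/(d+2)` has Hausdorff dimension zero. -/
theorem result (hd : 1 ≤ d) {Ω : Type} [MeasurableSpace Ω] (P : Measure Ω)
    [IsProbabilityMeasure P] (ω : ℕ → (Fin d → ℤ) → Ω → ℝ) (hmeas : ∀ i y, Measurable (ω i y))
    (hindep : iIndepFun (fun s : ℕ × (Fin d → ℤ) => ω s.1 s.2) P)
    (hident : ∀ i y, IdentDistrib (ω i y) (ω 1 0) P P)
    (hnc : ¬ ∃ c : ℝ, ∀ᵐ x ∂P, ω 1 0 x = c) (β : ℝ) (hβ : 0 < β) :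
    (∀ s : ℝ, 0 < s → ∀ᵐ v ∂(Measure.hausdorffMeasure (d * s) : Measure (Fin d → ℝ)),
      ∀ h : Fin d → ℝ,
      (∀ θ a c : ℝ, θ < 1 → 0 ≤ a → a < (1 + 2 * s) / (2 + 2 * s + d) → a < 1 / d →
        c < (1 - d * a) / 2 →
        ∀ᵐ x ∂P, ∃ᶠ n : ℕ in atTop, polymer β h (fun i y => ω i y x) n
          {w | ∀ i : ℕ, θ * n ≤ i → i ≤ n → dev v w i ≤ (n : ℝ) ^ a} ≤
            Real.exp (-(n : ℝ) ^ c)) ∧
      min ((1 + 2 * s) / (2 + 2 * s + d)) (1 / (d : ℝ)) ≤ wander P ω β h v) ∧
    (∀ a : ℝ, 1 / ((d : ℝ) + 2) < a → a ≤ 3 / ((d : ℝ) + 4) → a ≤ 1 / (d : ℝ) →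
      dimH {v : Fin d → ℝ | ∃ h : Fin d → ℝ, wander P ω β h v < a} ≤
        ENNReal.ofReal (d * ((d + 2) * a - 1) / (2 * (1 - a)))) ∧
    dimH {v : Fin d → ℝ | ∃ h : Fin d → ℝ, wander P ω β h v ≤ 1 / ((d : ℝ) + 2)} = 0 := by
  have hdR : (1 : ℝ) ≤ d := by exact_mod_cast hd
  have hd0 : (0 : ℝ) < d := by linarith
  have part1 : ∀ s : ℝ, 0 < s →
      ∀ᵐ v ∂(Measure.hausdorffMeasure (d * s) : Measure (Fin d → ℝ)), ∀ h : Fin d → ℝ,
      (∀ θ a c : ℝ, θ < 1 → 0 ≤ a → a < (1 + 2 * s) / (2 + 2 * s + d) → a < 1 / d →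
        c < (1 - d * a) / 2 →
        ∀ᵐ x ∂P, ∃ᶠ n : ℕ in atTop, polymer β h (fun i y => ω i y x) n
          {w | ∀ i : ℕ, θ * n ≤ i → i ≤ n → dev v w i ≤ (n : ℝ) ^ a} ≤
            Real.exp (-(n : ℝ) ^ c)) ∧
      min ((1 + 2 * s) / (2 + 2 * s + d)) (1 / (d : ℝ)) ≤ wander P ω β h v := by
    intro s hs
    filter_upwards [Pool.Agent.T9h62.DP.main_dir Pool.Agent.N692.SD.AC.main
      Pool.Agent.N413.SE.main hd ⟨hmeas, hindep, hident⟩ hnc hβ hs] with v hv
    intro h
    have h1 : ∀ θ a c : ℝ, θ < 1 → 0 ≤ a → a < (1 + 2 * s) / (2 + 2 * s + d) → a < 1 / d →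
        c < (1 - d * a) / 2 →
        ∀ᵐ x ∂P, ∃ᶠ n : ℕ in atTop, polymer β h (fun i y => ω i y x) n
          {w | ∀ i : ℕ, θ * n ≤ i → i ≤ n → dev v w i ≤ (n : ℝ) ^ a} ≤
            Real.exp (-(n : ℝ) ^ c) := by
      intro θ a c hθ ha0 ha ha' hc
      filter_upwards [hv h θ a c hθ ha0 ha ha' hc] with x hx
      refine hx.mono fun n hn => ?_
      rw [polymer_eq]
      refine le_trans (prob_mono _ _ _ ?_) hn
      intro w hw i hi hin k
      exact (abs_le_dev v w i k).trans (hw i hi hin)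
    refine ⟨h1, ?_⟩
    apply Pool.Agent.T9h62.DP.le_wander hd
    intro b hb0 hb
    have hb1 := lt_min_iff.1 hb
    have hb2 := hb1.2
    rw [lt_div_iff₀ hd0] at hb2
    refine ⟨(1 - d * b) / 4, by linarith, ?_⟩
    filter_upwards [h1 0 b ((1 - d * b) / 4) one_pos hb0.le hb1.1 hb1.2 (by linarith)] with x hx
    refine hx.mono fun n hn => ?_
    refine le_trans (polymer_mono _ _ _ ?_) hn
    intro w hw i _ hi
    exact hw i hi
  have dim_le : ∀ (s : ℝ), 0 < s → ∀ S : Set (Fin d → ℝ),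
      (∀ v ∈ S, ∃ h, wander P ω β h v < min ((1 + 2 * s) / (2 + 2 * s + d)) (1 / (d : ℝ))) →
      dimH S ≤ ENNReal.ofReal (d * s) := by
    intro s hs S hS
    have h1 : Measure.hausdorffMeasure (d * s) S = 0 := by
      have h2 := part1 s hs
      rw [ae_iff] at h2
      refine measure_mono_null ?_ h2
      intro v hv hcon
      obtain ⟨h, hh⟩ := hS v hv
      exact absurd (hcon h).2 (not_le.2 hh)
    have hds : (0 : ℝ) ≤ d * s := by positivity
    apply dimH_le_of_hausdorffMeasure_ne_top (d := Real.toNNReal (d * s))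
    rw [Real.coe_toNNReal _ hds, h1]
    exact ENNReal.zero_ne_top
  refine ⟨part1, ?_, ?_⟩
  · intro a ha1 ha2 ha3
    rw [div_lt_iff₀ (by linarith)] at ha1
    have ha2' := ha2
    rw [le_div_iff₀ (by linarith)] at ha2
    have ha1' : a < 1 := by nlinarith
    have ha4 : 0 < a := by nlinarith
    set s : ℝ := ((d + 2) * a - 1) / (2 * (1 - a)) with hs
    have hs0 : 0 < s := div_pos (by linarith) (by linarith)
    have hse : (1 + 2 * s) / (2 + 2 * s + d) = a := by
      have h1a : (1 : ℝ) - a ≠ 0 := by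
        intro h
        linarith
      have h2 : 2 * s * (1 - a) = (d + 2) * a - 1 := by
        rw [hs]
        field_simp
      rw [div_eq_iff (by linarith)]
      linarith
    have h5 := dim_le s hs0 {v : Fin d → ℝ | ∃ h : Fin d → ℝ, wander P ω β h v < a} (by
      rintro v ⟨h, hh⟩
      refine ⟨h, ?_⟩
      rw [hse, min_eq_left ha3]
      exact hh)
    have h6 : (d : ℝ) * s = d * ((d + 2) * a - 1) / (2 * (1 - a)) := by
      rw [hs]
      ring
    rw [← h6]
    exact h5
  · apply le_antisymm _ zero_le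
    apply le_of_forall_pos_le_add
    intro ε hε
    rw [zero_add]
    rcases eq_or_ne ε ⊤ with htop | htop
    · rw [htop]
      exact le_top
    set e : ℝ := ε.toReal with he
    have he0 : 0 < e := ENNReal.toReal_pos hε.ne' htop
    have h5 := dim_le (e / d) (by positivity)
      {v : Fin d → ℝ | ∃ h : Fin d → ℝ, wander P ω β h v ≤ 1 / ((d : ℝ) + 2)} (by
      rintro v ⟨h, hh⟩
      refine ⟨h, lt_of_le_of_lt hh (lt_min ?_ ?_)⟩
      · have hed : 0 < e / d := by positivity
        rw [div_lt_div_iff₀ (by linarith) (by linarith)]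
        nlinarith
      · rw [div_lt_div_iff₀ (by linarith) hd0]
        linarith)
    rw [mul_div_cancel₀ _ hd0.ne', he, ENNReal.ofReal_toReal htop] at h5
    exact h5

end Pool.Agent.Results.MP_7d29a1_pr.ExceptionalDirections
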