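import Pool.Agent.T9h62.DP.DriftMain
import Pool.Agent.N523.SE.MGF

/-!
Directed polymers in dimension `1+1`, simple random walk, i.i.d. environment with exponential
moments: upper bounds for the wandering exponent for all drifts outside sets of small Hausdorff
dimension. The definitions (`polymer`, `logZ`, `dev`, `wander`, `Concentrated`, `chiUp`) are in
`Pool/Agent/N662/SE/Exp.lean` and `Pool/Agent/N662/SE/Up.lean`.
-/

set_option autoImplicit false

open MeasureTheory ProbabilityTheory Filter Topology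

namespace Pool.Agent.Results.MP_7d29a1_pr.ExceptionalDrifts

open TH967.DP (Step pos energy)
open Pool.Agent.N662.SE

/-- Let `d = 1` and let `ω(i,y)` be i.i.d. with all exponential moments.
(1) Let `s > 0`. For all drifts `h` outside a set whose `s`-dimensional Hausdorff measure vanishes
there is a slope `v` such that
- for all `b, c` with `(2+s)/(2+2s) < b ≤ 1` and `c < ((1+s)b-1)/s`, almost surely, for all large
  `n` the polymer measure of `{|S_i - i v| ≤ n^b for all i ≤ n}` is at least `1 - exp(-n^c)`;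
- `(1+s) ν ≤ 1 + s χ'`, where `ν` is the wandering exponent around the line of slope `v` and `χ'`
  is the upper fluctuation exponent.
(2) For `3/4 ≤ a < 1` the set of the drifts for which the wandering exponent around every line is
greater than `a` has Hausdorff dimension at most `2 (1-a) / (2a-1)`; the set of the drifts for which
the wandering exponent around every line is at least `1` has Hausdorff dimension zero. -/
theorem result {Ω : Type} [MeasurableSpace Ω] (P : Measure Ω)
    [IsProbabilityMeasure P] (ω : ℕ → (Fin 1 → ℤ) → Ω → ℝ) (hmeas : ∀ i y, Measurable (ω i y))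
    (hindep : iIndepFun (fun s : ℕ × (Fin 1 → ℤ) => ω s.1 s.2) P)
    (hident : ∀ i y, IdentDistrib (ω i y) (ω 1 0) P P)
    (hexp : ∀ b : ℝ, Integrable (fun x => Real.exp (b * ω 1 0 x)) P) (β : ℝ) :
    (∀ s : ℝ, 0 < s → ∀ᵐ h ∂(Measure.hausdorffMeasure s : Measure (Fin 1 → ℝ)),
      ∃ v : Fin 1 → ℝ,
      (∀ b c : ℝ, (2 + s) / (2 + 2 * s) < b → b ≤ 1 → c < ((1 + s) * b - 1) / s →
        ∀ᵐ x ∂P, ∀ᶠ n : ℕ in atTop,
          1 - Real.exp (-(n : ℝ) ^ c) ≤ polymer β h (fun i y => ω i y x) n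
            {w | ∀ i : ℕ, i ≤ n → dev v w i ≤ (n : ℝ) ^ b}) ∧
      (1 + s) * wander P ω β h v ≤ 1 + s * chiUp P ω β h) ∧
    (∀ a : ℝ, 3 / 4 ≤ a → a < 1 →
      dimH {h : Fin 1 → ℝ | ∀ v : Fin 1 → ℝ, a < wander P ω β h v} ≤
        ENNReal.ofReal (2 * (1 - a) / (2 * a - 1))) ∧
    dimH {h : Fin 1 → ℝ | ∀ v : Fin 1 → ℝ, 1 ≤ wander P ω β h v} = 0 := by
  have mgf := Pool.Agent.N523.SE.MGF.main
  have hc : S_CONC := Pool.Agent.N523.SE.CONC.main mgf
  have he : IsEnv P ω := ⟨hmeas, hindep, hident⟩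
  have part1 : ∀ s : ℝ, 0 < s → ∀ᵐ h ∂(Measure.hausdorffMeasure s : Measure (Fin 1 → ℝ)),
      ∃ v : Fin 1 → ℝ,
      (∀ b c : ℝ, (2 + s) / (2 + 2 * s) < b → b ≤ 1 → c < ((1 + s) * b - 1) / s →
        ∀ᵐ x ∂P, ∀ᶠ n : ℕ in atTop,
          1 - Real.exp (-(n : ℝ) ^ c) ≤ polymer β h (fun i y => ω i y x) n
            {w | ∀ i : ℕ, i ≤ n → dev v w i ≤ (n : ℝ) ^ b}) ∧
      (1 + s) * wander P ω β h v ≤ 1 + s * chiUp P ω β h := by
    intro s hs
    filter_upwards [Pool.Agent.T9h62.DP.upper_s mgf P ω he hexp β hs] with h hh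
    obtain ⟨v, h1, h2⟩ := hh
    refine ⟨v, fun b c hb hb1 hcb => ?_, h2⟩
    apply h1 (1 / 2) (by norm_num) (by norm_num) (concentrated_half hc le_rfl he hexp β h) b c _
      hb1 hcb
    have e : (1 + s * (1 / 2)) / (1 + s) = (2 + s) / (2 + 2 * s) := by
      rw [div_eq_div_iff (by linarith) (by linarith)]
      ring
    rw [e]
    exact hb
  have dim_le : ∀ s : ℝ, 0 < s → ∀ S : Set (Fin 1 → ℝ),
      (∀ h ∈ S, ∀ v : Fin 1 → ℝ, (2 + s) / (2 + 2 * s) < wander P ω β h v) →
      dimH S ≤ ENNReal.ofReal s := by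
    intro s hs S hS
    have h1 : Measure.hausdorffMeasure s S = 0 := by
      have h2 := part1 s hs
      rw [ae_iff] at h2
      refine measure_mono_null ?_ h2
      rintro h hh ⟨v, -, hv⟩
      have h3 := hS h hh v
      have h4 := chiUp_le_half hc le_rfl he hexp β h
      rw [div_lt_iff₀ (by linarith)] at h3
      nlinarith
    apply dimH_le_of_hausdorffMeasure_ne_top (d := Real.toNNReal s)
    rw [Real.coe_toNNReal _ hs.le, h1]
    exact ENNReal.zero_ne_top
  refine ⟨part1, ?_, ?_⟩
  · intro a ha1 ha2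
    have hs : 0 < 2 * (1 - a) / (2 * a - 1) := div_pos (by linarith) (by linarith)
    apply dim_le _ hs
    intro h hh v
    refine lt_of_le_of_lt (le_of_eq ?_) (hh v)
    have h2 : 2 * a - 1 ≠ 0 := by
      intro h
      linarith
    rw [div_eq_iff (by linarith)]
    field_simp
    ring
  · apply le_antisymm _ zero_le
    apply le_of_forall_pos_le_add
    intro ε hε
    rw [zero_add]
    rcases eq_or_ne ε ⊤ with htop | htop
    · rw [htop]
      exact le_top
    have he0 : 0 < ε.toReal := ENNReal.toReal_pos hε.ne' htop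
    have h5 := dim_le ε.toReal he0 {h : Fin 1 → ℝ | ∀ v : Fin 1 → ℝ, 1 ≤ wander P ω β h v} (by
      intro h hh v
      refine lt_of_lt_of_le ?_ (hh v)
      rw [div_lt_one (by linarith)]
      linarith)
    rw [ENNReal.ofReal_toReal htop] at h5
    exact h5

end Pool.Agent.Results.MP_7d29a1_pr.ExceptionalDrifts
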