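import Pool.Agent.T9h62.DP.DriftMain
import Pool.Agent.N523.SE.MGF

/-!
Directed polymers in dimension `1+1`, simple random walk, i.i.d. environment with exponential
moments, positive temperature: the fluctuation exponent `χ` is positive for all drifts outside a
set of Hausdorff dimension zero. The definitions (`logZ`, `Concentrated`, `chiUp`, `chi`) are in
`Pool/Agent/N662/SE/Exp.lean`.
-/

set_option autoImplicit false

open MeasureTheory ProbabilityTheory Filter Topology

namespace Pool.Agent.Results.MP_7d29a1_pr.PositiveFluctuation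

open TH967.DP (Step pos energy)
open Pool.Agent.N662.SE

/-- Let `d = 1`, let `ω(i,y)` be i.i.d., not almost surely constant, with all exponential moments,
and let `β > 0`.
(1) Let `s > 0`. For all drifts `h` outside a set whose `s`-dimensional Hausdorff measure vanishes,
`s (1 - χ') / (2 (1 + s)) ≤ χ`, where `χ` is the fluctuation exponent and `χ'` the upper
fluctuation exponent, and for every `t < s / (4 (1 + s))` the variance of `log Z_n` is at least
`n^(2t)` for all large `n`.
(2) For `0 < t ≤ 1/8` the set of the drifts with `χ < t` has Hausdorff dimension at most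
`4t / (1 - 4t)`, and the set of the drifts with `χ = 0` has Hausdorff dimension zero. -/
theorem result {Ω : Type} [MeasurableSpace Ω] (P : Measure Ω)
    [IsProbabilityMeasure P] (ω : ℕ → (Fin 1 → ℤ) → Ω → ℝ) (hmeas : ∀ i y, Measurable (ω i y))
    (hindep : iIndepFun (fun s : ℕ × (Fin 1 → ℤ) => ω s.1 s.2) P)
    (hident : ∀ i y, IdentDistrib (ω i y) (ω 1 0) P P)
    (hexp : ∀ b : ℝ, Integrable (fun x => Real.exp (b * ω 1 0 x)) P)
    (hnc : ¬ ∃ c : ℝ, ∀ᵐ x ∂P, ω 1 0 x = c) (β : ℝ) (hβ : 0 < β) :
    (∀ s : ℝ, 0 < s → ∀ᵐ h ∂(Measure.hausdorffMeasure s : Measure (Fin 1 → ℝ)),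
      s * (1 - chiUp P ω β h) / (2 * (1 + s)) ≤ chi P ω β h ∧
      ∀ t : ℝ, t < s / (4 * (1 + s)) → ∀ᶠ n : ℕ in atTop, (n : ℝ) ^ (2 * t) ≤
        variance (fun x => logZ β h (fun i y => ω i y x) n) P) ∧
    (∀ t : ℝ, 0 < t → t ≤ 1 / 8 →
      dimH {h : Fin 1 → ℝ | chi P ω β h < t} ≤ ENNReal.ofReal (4 * t / (1 - 4 * t))) ∧
    dimH {h : Fin 1 → ℝ | chi P ω β h = 0} = 0 := by
  have mgf := Pool.Agent.N523.SE.MGF.main
  have hc : S_CONC := Pool.Agent.N523.SE.CONC.main mgf
  have hvar : S_VAR := Pool.Agent.N50.SE.VAR.main hc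
  have ac := Pool.Agent.N692.SD.AC.main
  have he : IsEnv P ω := ⟨hmeas, hindep, hident⟩
  have part1 : ∀ s : ℝ, 0 < s → ∀ᵐ h ∂(Measure.hausdorffMeasure s : Measure (Fin 1 → ℝ)),
      s * (1 - chiUp P ω β h) / (2 * (1 + s)) ≤ chi P ω β h ∧
      ∀ t : ℝ, t < s / (4 * (1 + s)) → ∀ᶠ n : ℕ in atTop, (n : ℝ) ^ (2 * t) ≤
        variance (fun x => logZ β h (fun i y => ω i y x) n) P := by
    intro s hs
    have h1s : 0 < 1 + s := by linarith
    filter_upwards [Pool.Agent.T9h62.DP.upper_s mgf P ω he hexp β hs] with h hh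
    obtain ⟨v, h1, h2⟩ := hh
    constructor
    · have h5 := chi_ge ac hc hvar he hexp hnc hβ h v
      refine le_trans ?_ h5
      rw [div_le_iff₀ (by linarith)]
      linarith
    · intro t ht
      have hb0 : (1 + s * (1 / 2)) / (1 + s) < min 1 (1 - 2 * t) := by
        apply lt_min
        · rw [div_lt_one h1s]
          linarith
        · rw [lt_div_iff₀ (by linarith)] at ht
          rw [div_lt_iff₀ h1s]
          linarith
      obtain ⟨b, hb1, hb2⟩ := exists_between hb0
      have hb3 := lt_min_iff.1 hb2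
      have hb4 : 0 < b := lt_of_le_of_lt (by positivity) hb1
      have hb5 : 0 < ((1 + s) * b - 1) / s := by
        apply div_pos _ hs
        rw [div_lt_iff₀ h1s] at hb1
        linarith
      set c : ℝ := ((1 + s) * b - 1) / s / 2 with hcdef
      have hc0 : 0 < c := by positivity
      have h6 := h1 (1 / 2) (by norm_num) (by norm_num)
        (concentrated_half hc le_rfl he hexp β h) b c hb1 hb3.1.le (by linarith)
      apply var_of_conf ac hc hvar he hexp hnc hβ hb4.le hb3.1 _
        (by linarith [hb3.2] : t < (1 - b) / 2) (v := v)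
      filter_upwards [h6] with x hx
      have h7 : ∀ᶠ n : ℕ in atTop, Real.exp (-(n : ℝ) ^ c) < 1 / 2 := by
        have h5 : Tendsto (fun n : ℕ => (n : ℝ) ^ c) atTop atTop :=
          (tendsto_rpow_atTop hc0).comp tendsto_natCast_atTop_atTop
        have h6 := Real.tendsto_exp_neg_atTop_nhds_zero.comp h5
        exact h6.eventually (gt_mem_nhds (by norm_num : (0 : ℝ) < 1 / 2))
      filter_upwards [hx, h7] with n hn hn2
      linarith
  have dim_le : ∀ s : ℝ, 0 < s → ∀ S : Set (Fin 1 → ℝ),
      (∀ h ∈ S, chi P ω β h < s / (4 * (1 + s))) → dimH S ≤ ENNReal.ofReal s := by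
    intro s hs S hS
    have h1 : Measure.hausdorffMeasure s S = 0 := by
      have h2 := part1 s hs
      rw [ae_iff] at h2
      refine measure_mono_null ?_ h2
      rintro h hh ⟨hv, -⟩
      have h3 := hS h hh
      have h4 := chiUp_le_half hc le_rfl he hexp β h
      have h5 : s / (4 * (1 + s)) ≤ s * (1 - chiUp P ω β h) / (2 * (1 + s)) := by
        rw [div_le_div_iff₀ (by linarith) (by linarith)]
        nlinarith [mul_pos hs (by linarith : 0 < 1 + s)]
      linarith
    apply dimH_le_of_hausdorffMeasure_ne_top (d := Real.toNNReal s)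
    rw [Real.coe_toNNReal _ hs.le, h1]
    exact ENNReal.zero_ne_top
  refine ⟨part1, ?_, ?_⟩
  · intro t ht1 ht2
    have hs : 0 < 4 * t / (1 - 4 * t) := div_pos (by linarith) (by linarith)
    apply dim_le _ hs
    intro h hh
    refine lt_of_lt_of_le hh (le_of_eq ?_)
    have h2 : 1 - 4 * t ≠ 0 := by
      intro h
      linarith
    have h3 : 4 * t / (1 - 4 * t) * (1 - 4 * t) = 4 * t := div_mul_cancel₀ _ h2
    rw [eq_div_iff (by linarith)]
    linear_combination -h3
  · apply le_antisymm _ zero_le
    apply le_of_forall_pos_le_add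
    intro ε hε
    rw [zero_add]
    rcases eq_or_ne ε ⊤ with htop | htop
    · rw [htop]
      exact le_top
    have he0 : 0 < ε.toReal := ENNReal.toReal_pos hε.ne' htop
    have h5 := dim_le ε.toReal he0 {h : Fin 1 → ℝ | chi P ω β h = 0} (by
      intro h hh
      rw [Set.mem_ofPred_eq] at hh
      rw [hh]
      positivity)
    rw [ENNReal.ofReal_toReal htop] at h5
    exact h5

end Pool.Agent.Results.MP_7d29a1_pr.PositiveFluctuation
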