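import Pool.Agent.T9h62.KPZ.Main
import Pool.Agent.N523.SE.MGF

/-!
Directed polymers in dimension `1+1`, simple random walk, i.i.d. environment with exponential
moments, positive temperature: the scaling relation `χ = 2ν - 1` as a pair of inequalities between
the exponents, at almost every slope and at almost every drift, without an assumption on the
curvature of the limiting free energy. The definitions (`polymer`, `logZ`, `dev`, `wander`,
`Concentrated`, `chiUp`, `chi`) are in `Pool/Agent/N662/SE/Exp.lean` and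
`Pool/Agent/N662/SE/Up.lean`, the definition of `wanderStrong` is in
`Pool/Agent/T9h62/KPZ/Exp.lean`.
-/

set_option autoImplicit false

open MeasureTheory ProbabilityTheory Filter Topology

namespace Pool.Agent.Results.MP_7d29a1_pr.ScalingRelation

open TH967.DP (Step pos energy)
open Pool.Agent.N662.SE
open Pool.Agent.T9h62.KPZ (wanderStrong)

/-- The variance of `log Z_n` is at least linear: `Var log Z_n ≥ c n` for some `c > 0` and all large
`n`. -/
def LinearVar {Ω : Type} [MeasurableSpace Ω] (P : Measure Ω)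
    (ω : ℕ → (Fin 1 → ℤ) → Ω → ℝ) (β : ℝ) (h : Fin 1 → ℝ) : Prop :=
  ∃ c : ℝ, 0 < c ∧ ∀ᶠ n : ℕ in atTop,
    c * n ≤ variance (fun x => logZ β h (fun i y => ω i y x) n) P

/-- Let `d = 1`, let `ω(i,y)` be i.i.d., not almost surely constant, with all exponential moments,
and let `β > 0`. Let `χ` be the fluctuation exponent and `χ'` the upper fluctuation exponent at the
drift `h`, and let `ν ≤ ν̂` be the wandering exponent and the strong wandering exponent around the
line of slope `v`.
(1) Let `s > 0`. For all slopes `v` outside a set whose `s`-dimensional Hausdorff measure vanishes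
and for all drifts `h`: `ν ≤ ν̂`, and either the variance of `log Z_n` is at least linear or
`χ (1 + s / χ') ≤ (1 + s) ν̂`.
(2) The set of the slopes `v` such that for some drift `h` the variance of `log Z_n` is not at least
linear and `ν̂ < χ` has Hausdorff dimension zero.
(3) Let `s > 0`. For all drifts `h` outside a set whose `s`-dimensional Hausdorff measure vanishes
there is a slope `v` with `(1 + s) ν̂ ≤ 1 + s χ'`.
(4) There is a Lebesgue null set `N` such that for Lebesgue almost every drift `h` there is a slope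
`v` with `2 ν̂ - 1 ≤ χ'` and, if `v ∉ N` and the variance of `log Z_n` is not at least linear,
`χ + χ / χ' ≤ 2 ν̂`, so that `χ = 2 ν̂ - 1` if `χ = χ'`. -/
theorem result {Ω : Type} [MeasurableSpace Ω] (P : Measure Ω)
    [IsProbabilityMeasure P] (ω : ℕ → (Fin 1 → ℤ) → Ω → ℝ) (hmeas : ∀ i y, Measurable (ω i y))
    (hindep : iIndepFun (fun s : ℕ × (Fin 1 → ℤ) => ω s.1 s.2) P)
    (hident : ∀ i y, IdentDistrib (ω i y) (ω 1 0) P P)
    (hexp : ∀ b : ℝ, Integrable (fun x => Real.exp (b * ω 1 0 x)) P)
    (hnc : ¬ ∃ c : ℝ, ∀ᵐ x ∂P, ω 1 0 x = c) (β : ℝ) (hβ : 0 < β) :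
    (∀ s : ℝ, 0 < s → ∀ᵐ v ∂(Measure.hausdorffMeasure s : Measure (Fin 1 → ℝ)),
      ∀ h : Fin 1 → ℝ, wander P ω β h v ≤ wanderStrong P ω β h v ∧
        (LinearVar P ω β h ∨
          chi P ω β h * (1 + s / chiUp P ω β h) ≤ (1 + s) * wanderStrong P ω β h v)) ∧
    dimH {v : Fin 1 → ℝ | ∃ h : Fin 1 → ℝ, ¬ LinearVar P ω β h ∧
      wanderStrong P ω β h v < chi P ω β h} = 0 ∧
    (∀ s : ℝ, 0 < s → ∀ᵐ h ∂(Measure.hausdorffMeasure s : Measure (Fin 1 → ℝ)),
      ∃ v : Fin 1 → ℝ, (1 + s) * wanderStrong P ω β h v ≤ 1 + s * chiUp P ω β h) ∧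
    ∃ N : Set (Fin 1 → ℝ), volume N = 0 ∧ ∀ᵐ h : Fin 1 → ℝ, ∃ v : Fin 1 → ℝ,
      2 * wanderStrong P ω β h v - 1 ≤ chiUp P ω β h ∧
      (v ∉ N → ¬ LinearVar P ω β h →
        chi P ω β h + chi P ω β h / chiUp P ω β h ≤ 2 * wanderStrong P ω β h v ∧
        (chi P ω β h = chiUp P ω β h → chi P ω β h = 2 * wanderStrong P ω β h v - 1)) := by
  have mgf := Pool.Agent.N523.SE.MGF.main
  have hc : S_CONC := Pool.Agent.N523.SE.CONC.main mgf
  have hvar : S_VAR := Pool.Agent.N50.SE.VAR.main hc
  have ac := Pool.Agent.N692.SD.AC.main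
  have he : IsEnv P ω := ⟨hmeas, hindep, hident⟩
  have part1 : ∀ s : ℝ, 0 < s → ∀ᵐ v ∂(Measure.hausdorffMeasure s : Measure (Fin 1 → ℝ)),
      ∀ h : Fin 1 → ℝ, wander P ω β h v ≤ wanderStrong P ω β h v ∧
        (LinearVar P ω β h ∨
          chi P ω β h * (1 + s / chiUp P ω β h) ≤ (1 + s) * wanderStrong P ω β h v) := by
    intro s hs
    filter_upwards [Pool.Agent.T9h62.KPZ.lower mgf P ω he hexp β hs] with v hv h
    exact ⟨Pool.Agent.T9h62.KPZ.wander_le_strong le_rfl hmeas β h v, hv h⟩
  have part3 := fun s hs => Pool.Agent.T9h62.KPZ.upper mgf P ω he hexp β (s := s) hs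
  refine ⟨part1, ?_, part3, ?_⟩
  · -- dimension zero
    have dim_le : ∀ s : ℝ, 0 < s → dimH {v : Fin 1 → ℝ | ∃ h : Fin 1 → ℝ,
        ¬ LinearVar P ω β h ∧ wanderStrong P ω β h v < chi P ω β h} ≤ ENNReal.ofReal s := by
      intro s hs
      have h1 : Measure.hausdorffMeasure s {v : Fin 1 → ℝ | ∃ h : Fin 1 → ℝ,
          ¬ LinearVar P ω β h ∧ wanderStrong P ω β h v < chi P ω β h} = 0 := by
        have h2 := part1 s hs
        rw [ae_iff] at h2
        refine measure_mono_null ?_ h2
        rintro v ⟨h, hnl, hlt⟩ hv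
        rcases (hv h).2 with h3 | h3
        · exact hnl h3
        have h4 := chiUp_le_half hc le_rfl he hexp β h
        have h5 := chi_le_chiUp hc le_rfl he hexp β h
        have h6 := Pool.Agent.T9h62.KPZ.strong_nonneg P ω β h v
        set X := chi P ω β h
        set Y := chiUp P ω β h
        have hX0 : 0 < X := lt_of_le_of_lt h6 hlt
        have hY0 : 0 < Y := hX0.trans_le h5
        have h7 : X * (1 + s / Y) < (1 + s) * X :=
          lt_of_le_of_lt h3 (mul_lt_mul_of_pos_left hlt (by linarith))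
        have h8 : s / Y < s := by nlinarith
        rw [div_lt_iff₀ hY0] at h8
        nlinarith
      apply dimH_le_of_hausdorffMeasure_ne_top (d := Real.toNNReal s)
      rw [Real.coe_toNNReal _ hs.le, h1]
      exact ENNReal.zero_ne_top
    apply le_antisymm _ zero_le
    apply le_of_forall_pos_le_add
    intro ε hε
    rw [zero_add]
    rcases eq_or_ne ε ⊤ with htop | htop
    · rw [htop]
      exact le_top
    have he0 : 0 < ε.toReal := ENNReal.toReal_pos hε.ne' htop
    have h5 := dim_le ε.toReal he0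
    rw [ENNReal.ofReal_toReal htop] at h5
    exact h5
  · have hvol : (Measure.hausdorffMeasure 1 : Measure (Fin 1 → ℝ)) = volume := by
      have := MeasureTheory.hausdorffMeasure_pi_real (ι := Fin 1)
      simpa using this
    have p1 := part1 1 one_pos
    have p3 := part3 1 one_pos
    rw [hvol] at p1 p3
    refine ⟨_, ae_iff.1 p1, ?_⟩
    filter_upwards [p3] with h hh
    obtain ⟨v, hv⟩ := hh
    refine ⟨v, by linarith, fun hvN hnl => ?_⟩
    have hvN' : ∀ h : Fin 1 → ℝ, wander P ω β h v ≤ wanderStrong P ω β h v ∧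
        (LinearVar P ω β h ∨
          chi P ω β h * (1 + 1 / chiUp P ω β h) ≤ (1 + 1) * wanderStrong P ω β h v) := by
      by_contra hno
      exact hvN hno
    have h1 := (hvN' h).1
    have h2 := (hvN' h).2.resolve_left hnl
    have h3 := chiUp_le_half hc le_rfl he hexp β h
    have h4 := chi_ge ac hc hvar he hexp hnc hβ h v
    have h5 : chi P ω β h + chi P ω β h / chiUp P ω β h ≤ 2 * wanderStrong P ω β h v := by
      have e : chi P ω β h * (1 + 1 / chiUp P ω β h) =
        chi P ω β h + chi P ω β h / chiUp P ω β h := by ring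
      rw [e] at h2
      linarith
    refine ⟨h5, fun heq => ?_⟩
    rw [← heq] at h5 h3 hv
    have h6 : 0 < chi P ω β h := by linarith
    rw [div_self h6.ne'] at h5
    linarith

end Pool.Agent.Results.MP_7d29a1_pr.ScalingRelation
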